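import Pool.Agent.T9h38.RM.FamE
import Pool.Agent.T9h38.RM.RealM

set_option autoImplicit false

/-!
# The period torsor of abelian varieties of `GL(2)`-type, K3 surfaces and an arbitrary motive

Let `A i`, `i ∈ I`, be a family of abelian varieties over the field `ℚ̄` of algebraic numbers (the set `I`
may be infinite, and it may contain all abelian varieties with the properties below), and let `V` be
**any** de Rham-Betti object over `ℚ̄`, for example the realization of any André motive. Nothing is
assumed about periods: `AbVar` is the description of an abelian variety over `ℚ̄` by theta functions, and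
`dR` are its periods. Each `A i` is of one of the following two kinds (`Admissible`).

* (`r i = 3`) **Real or quaternionic multiplication of maximal degree** (`PlaneType`, `Isotypic`). The
  centre of `End(A i) ⊗ ℚ` is a field, and the homology `H_1(A i, ℂ)` is a sum of planes
  `P_j H_1(A i, ℂ)`, `j = 1, …, dim A i`, given by symmetric projectors in `End(A i) ⊗ ℂ`, with
  `P_j End(A i) P_j = ℂ P_j`; the number of isomorphism classes of planes is `k i`. This says that `A i`
  is isogenous to a power of a simple abelian variety `B`, such that either `End(B) ⊗ ℚ` is a totally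
  real field of degree `dim B = k i`, or it is a totally indefinite quaternion algebra over a totally
  real field of degree `k i = dim B / 2`. For example: elliptic curves without complex multiplication
  (`k i = 1`; see the theorem `elliptic`), abelian varieties with real multiplication by a field of
  degree `dim A i` (see the theorem `realMultiplication`), the factors without complex multiplication
  of the Jacobians of modular curves and of Shimura curves, fake elliptic curves.
* (`r i ≥ 6`) **Spin type with `k i` colours of rank `r i`** (`SpinType`, `Simple`), for example the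
  Kuga-Satake variety of a K3 surface such that the transcendental lattice is of dimension `r i ≥ 6`
  over its endomorphism field, which is totally real of degree `k i`.

**Theorem.** For every de Rham-Betti structure `U` (of any rank) there is a set `E U` of *exceptional*
indices such that
* (a) `i` is not in `E U` if `U` is of CM type, and `i` is not in `E (h¹(A j))` if there are no
  homomorphisms between `A i` and `A j`;
* (b) `E U` is finite up to isogeny: if `S` is a finite subset of `E U`, such that there are no
  homomorphisms between `A i` and `A j` for different elements `i`, `j` of `S`, then the sum over `S` of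
  the numbers `k i * b (r i)` is at most the rank of `U`, where `b 3 = 2`, `b 6 = 4` and `b r = r` for
  `r ≥ 7` (`bound`). In particular (one element) `i` is not in `E U` if the rank of `U` is smaller than
  `k i * b (r i)`;
* (c) for all finite families `A' a` of the `A i` without homomorphisms between different members, and
  all finite families `V j` which are built from structures for which the `A' a` are not exceptional
  (`Built`), the Hodge group of `∏ A' a` splits off from the period torsor of `V = ⊕ V j`
  (`TorsorSplits`): let `G` be an algebraic subgroup of `GL(M_B)`, `M = h¹(∏ A' a) ⊕ V`, defined over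
  `ℚ`, such that the comparison isomorphism of `M` is a point of a torsor of `G` over `ℚ̄` (`HasPoint`).
  Then
  1. `G` contains the group `Hg(∏ A' a) × 1`, where `Hg(∏ A' a)` is the Hodge group of `∏ A' a`, and `1`
    is the trivial group acting on `V` (`hodgeGroup`);
  2. for every nonzero complex number `z` there is an element of `G` which acts on `H¹(∏ A' a)` by the
    Hodge structure `h(z)`. So the projection of `G` to `GL(H¹(∏ A' a))` contains the Mumford-Tate
    group of `∏ A' a`. (If there are no `V j`, then `G` itself contains the Mumford-Tate group.)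

The group `G_dRB(M)` of the problem is the smallest group `G` as in (c). So (c) says that `G_dRB(M)` is
mapped onto `G_dRB(V)` and the kernel contains `Hg(∏ A' a)`. There is one assignment `E` for all
structures, all finite subfamilies and all constructions.

## What this says about `Ω^dRB = Ω^And`

Let `N` be an André motive whose realization is `V`, such that the Tate motive `ℚ(1)` is in `⟨N⟩` (one
may add it to `N`), and let `M = h¹(∏ A' a) ⊕ N`. By the theorems of Deligne (Hodge classes on abelian
varieties are absolute) and André (they are motivated) the group `G_And(∏ A' a)` is the Mumford-Tate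
group. So the kernel of `G_And(M) → G_And(N)` consists of elements of the Mumford-Tate group of
`∏ A' a` which act trivially on `ℚ(1)`, that is, it is contained in `Hg(∏ A' a) × 1`. The group
`G_dRB(M)` contains `Hg(∏ A' a) × 1` by the theorem, and it is mapped onto `G_dRB(N)`. Therefore **the
equality `Ω^dRB = Ω^And` holds for `M` if and only if it holds for `N`.**

Examples.
* `N = ℚ(1)`: the equality `Ω^dRB = Ω^And` holds for all products of elliptic curves without complex
  multiplication, of abelian varieties of `GL(2)`-type or with quaternionic multiplication of maximal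
  degree, of K3 surfaces whose transcendental lattice is of rank at least six over its totally real
  endomorphism field, and of their powers (powers and isogenous factors do not change `⟨M⟩`). K3
  surfaces of Picard number 19, and of Picard number 18 with endomorphism field `ℚ` (for example the
  Kummer surface of a product of two elliptic curves which are not isogenous), are included: their
  Kuga-Satake varieties are products of abelian varieties of the first kind (the Lie algebras `so(3)`
  and `so(4)` are forms of `sl(2)` and `sl(2) × sl(2)`).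
* `N` of potential CM type with the equality, for example `N = h¹` of the abelian varieties with
  complex multiplication of `CMPeriodTorsors`: by (a) all these products may be multiplied with abelian
  varieties with complex multiplication.
* Let `N` be an arbitrary André motive. All but finitely many isogeny classes of the `B` as above split
  off from `N`, in the same product: for example there are at most `rank(N) / 2` isogeny classes of
  elliptic curves without complex multiplication such that the equality for a product of other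
  elliptic curves with `N` is not equivalent to the equality for `N`. The bound is sharp for `N = h¹` of a
  product of elliptic curves. By (b) it is a bound for all kinds together: every exceptional `A i` of the
  first kind uses up `2 k i` of the rank, and every exceptional K3 surface uses up the rank of
  its transcendental lattice.
* Let `N` be built from motives of rank one, for example from 1-motives with torus and lattice
  parts or from mixed Tate motives: there are no exceptions.

## Relation to the files of the library

`SplitTorsors` (a file of the library) is the analogous statement for abelian varieties of spin type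
with a fixed Clifford algebra; there is at most one member of rank smaller than six, which is of
small rank itself, and bounds for the exceptions and pairs of members are only considered for ranks
`≥ 6`. The spin representation is a tensor product over the colours; abelian varieties with real
multiplication of degree `k ≥ 2` are not of this kind, since their homology is a direct sum of planes.
`MP_ae0f86_nt.ModularOneMotives` (by another member of the team) treats the Mumford-Tate group
of a single 1-motive over an abelian variety whose homology is a sum of planes, without `V`.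
`MP_bf54cf_ag.MaximalRealMult` shows that all de Rham-Betti classes on the powers of an abelian
variety with maximal real multiplication are sums of products of divisor classes, so the case
`V = 0` with members of the first kind only is a consequence of that file (and of the theorem of
Wüstholz that the group is reductive). New here: members of the first kind in any number together
with members of the second kind and with an arbitrary `V`; the bound for the exceptions for both kinds
together.

## Proof

As in `SplitTorsors`, the Lie algebra `𝔩` generated by the logarithmic derivatives of the matrices of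
periods of all structures at once is used. It is shown that the image of `𝔩` in each member is the
Lie algebra of the Hodge group (`Fine`): for the first kind the image is semisimple with commutant
`End(A i)` by the theorem of Schneider and Lang (Wüstholz), so it acts on each plane by `sl(2)`, and on
representatives of the classes of planes by the product of the `sl(2)` by a theorem of Goursat type
(`Gd.single`). The members are pairwise independent (`Sep`): the Lie algebra of `A i` is simple over
`ℚ`, since the idempotent of an ideal would be a central idempotent of `End(A i)` (`noIdeals_px`). If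
the image of `𝔩` in a product of two members of the first kind is not the product, then by the
Goursat argument for matrices of size two there is a common plane, so there is an intertwiner
over `ℂ`, and its rational components are homomorphisms of de Rham-Betti structures, so homomorphisms
of the abelian varieties (`inter_zero`). The Lie algebra of a member of the first kind is a sum of `sl(2)`, and
`so(r)`, `r ≥ 5`, has no nonzero homomorphism to `sl(2)` (`no_five`), so that members of different
kinds are independent. Since the Lie algebras are perfect, pairwise independence is enough (lemma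
of Ribet). The bound in (b) is obtained as in `SplitTorsors` by reduction to commuting
representations of the simple factors without invariants, where now also factors `sl(2) = so(3)` are
admitted (`sysG_dim`).
-/

open Module Matrix Pool.Agent.Y102 Pool.Agent.W516.DR Pool.Agent.H204R3.GP

noncomputable section

namespace Pool.Agent.Results.MP_470b79_ag.GLTwoSplitTorsors

/-- The period `(2 π i) ^ w` of the Tate twist. -/
def twist (w : ℤ) : ℂ := (2 * Real.pi * Complex.I) ^ w

section Kinds

variable {g : ℕ} (A : AbVar g)

/-! ### The first kind -/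

/-- `T` is an endomorphism of `A` (an element of `End(A) ⊗ ℚ`), in terms of its action on the rational
homology: it respects the Hodge structure and the de Rham structure over `ℚ̄`. -/
def IsEnd (T : Module.End ℚ A.H1) : Prop :=
  (∃ Q : (Fin g → ℂ) →ₗ[ℂ] (Fin g → ℂ), ∀ w, A.per (T w) = Q (A.per w)) ∧
    ∃ a : (Fin g ⊕ Fin g) → (Fin g ⊕ Fin g) → QBar, ∀ p w,
      A.dR p (T w) = ∑ q, algebraMap QBar ℂ (a p q) * A.dR q w

/-- The algebra of the endomorphisms of `H_1(A, ℂ)`, as matrices for the basis of the lattice. -/
abbrev EndC (_ : AbVar g) : Type := Matrix (Fin (2 * g)) (Fin (2 * g)) ℂ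

/-- The matrix of the extension of an endomorphism of `H_1(A, ℚ)` to `H_1(A, ℂ)`. -/
def toC (X : Module.End ℚ A.H1) : EndC A := Matrix.of fun i j => (X (Pi.single j 1) i : ℂ)

/-- The matrix of the Riemann form of the polarization in the basis of the lattice. -/
def riemannMatrix : EndC A := Matrix.of fun i j =>
  (∑ k, (A.η i k * A.lam j k - A.η j k * A.lam i k)) / (2 * Real.pi * Complex.I)

/-- The homology `H_1(A, ℂ)` is the sum of the planes `P_i H_1(A, ℂ)`, `i = 1, ..., g`, given by
projectors `P_i` of rank two in `End(A) ⊗ ℂ`, which are symmetric for the polarization, with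
`P_i End(A) P_i = ℂ P_i`, and `c i` is the isomorphism class of the plane (for the action of the
commutant of `End(A)`); there are `k` classes. -/
structure IsPlaneDecomposition {k : ℕ} (P : Fin g → EndC A) (c : Fin g → Fin k) : Prop where
  algebraic : ∀ i, P i ∈ Submodule.span ℂ {M | ∃ T, IsEnd A T ∧ M = toC A T}
  projector : ∀ i, P i * P i = P i
  sum : ∑ i, P i = 1
  plane : ∀ i, (P i).trace = 2
  symmetric : ∀ i, (P i)ᵀ * riemannMatrix A = riemannMatrix A * P i
  scalar : ∀ i T, IsEnd A T → ∃ z : ℂ, P i * toC A T * P i = z • P i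
  classes : ∀ i j, c i = c j ↔ ∃ T, IsEnd A T ∧ P j * toC A T * P i ≠ 0
  surjective : Function.Surjective c

/-- The homology of `A` is a sum of planes as above, with `k` classes. -/
def PlaneType (k : ℕ) : Prop :=
  ∃ (P : Fin g → EndC A) (c : Fin g → Fin k), IsPlaneDecomposition A P c

/-- `A` is isogenous to a power of a simple abelian variety: there are no central idempotents in
`End(A) ⊗ ℚ` except `0` and `1`. -/
def Isotypic : Prop :=
  ∀ e, IsEnd A e → e * e = e → (∀ T, IsEnd A T → e * T = T * e) → e = 0 ∨ e = 1

/-! ### The second kind -/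

/-- The multilinear forms in `2m` variables in the rational homology. -/
abbrev Form (m : ℕ) : Type := MultilinearMap ℚ (fun _ : Fin m × Fin 2 => A.H1) ℚ

/-- The endomorphism `X` annihilates the form `φ` (as a derivation). -/
def Annihilates {m : ℕ} (X : Module.End ℚ A.H1) (φ : Form A m) : Prop :=
  ∀ v, ∑ k, φ (Function.update v k (X (v k))) = 0

/-- `X` is in the Lie algebra `𝔤`: it annihilates all classes in `H^1(A) ^ {⊗ 2m} (m)` that are Hodge
classes and de Rham-Betti classes. -/
def InLie (X : Module.End ℚ A.H1) : Prop :=
  ∀ (m : ℕ) (φ : Form A m), IsHodgeTensor (A.per : A.H1 →+ (Fin g → ℂ)) φ →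
    IsDeRhamBettiForm QBar A.dR (2 * Real.pi * Complex.I) m φ → Annihilates A X φ

/-- The complex Lie algebra `𝔤 ⊗ ℂ`, acting on `H_1(A, ℂ)`. -/
def lieC : Submodule ℂ (EndC A) := Submodule.span ℂ {Y | ∃ X, InLie A X ∧ Y = toC A X}

/-- The `E i` are the generators of a Clifford algebra acting on `H_1(A, ℂ)`. -/
def Clifford {N : ℕ} (E : Fin N → EndC A) : Prop :=
  (∀ i, E i * E i = 1) ∧ ∀ i j, i ≠ j → E i * E j = -(E j * E i)

/-- Every colour `σ` is the colour `c j` of exactly `r` of the `j`. -/
def Uniform {N k : ℕ} (c : Fin N → Fin k) (r : ℕ) : Prop :=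
  ∀ σ, (Finset.univ.filter fun j => c j = σ).card = r

/-- The Lie algebra `𝔤 ⊗ ℂ` is a sum of `k` orthogonal Lie algebras `so(r)`, acting by spin
representations. -/
def SpinType (r k : ℕ) : Prop :=
  ∃ (N : ℕ) (E : Fin N → EndC A) (c : Fin N → Fin k), Clifford A E ∧
    Uniform c r ∧ lieC A = Submodule.span ℂ {Y | ∃ i j, i ≠ j ∧ c i = c j ∧ Y = E i * E j}

/-- `N` is an ideal of the Lie algebra `𝔤`. -/
def IsIdeal (N : Submodule ℚ (Module.End ℚ A.H1)) : Prop :=
  ∀ Y ∈ N, InLie A Y ∧ ∀ X, InLie A X → X * Y - Y * X ∈ N

/-- The Lie algebra `𝔤` has no ideals except zero and `𝔤`. -/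
def Simple : Prop :=
  ∀ N, IsIdeal A N → ∀ Y ∈ N, Y ≠ 0 → ∀ X, InLie A X → X ∈ N

/-- The abelian varieties which are considered: an isotypic sum of planes with `k` classes (with
`r = 3`), or spin type with `k` colours of rank `r ≥ 6`, with a simple Lie algebra. -/
inductive Admissible (r k : ℕ) : Prop
  | plane (hr : r = 3) (h : PlaneType A k) (h' : Isotypic A)
  | spin (hr : 6 ≤ r) (h : SpinType A r k) (h' : Simple A)

variable {A}

theorem isEnd_iff {T : Module.End ℚ A.H1} : IsEnd A T ↔ T ∈ A.EA :=
  ⟨fun h => A.mem_EA.2 h.2, fun h => ⟨A.hodge_hom A (A.mem_EA.1 h), A.mem_EA.1 h⟩⟩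

theorem toC_eq' (T : Module.End ℚ A.H1) : toC A T = Pool.Agent.Y102.toC T := by
  ext i j
  rfl

theorem riemannMatrix_eq : riemannMatrix A = Pool.Agent.R917.GL.omM A := by
  have hl : ∀ j, A.per (Pi.single j 1) = A.lam j := by
    intro j
    unfold AbVar.per
    rw [Fintype.linearCombination_apply_single, one_smul]
  ext i j
  have h1 : ((A.om (Pi.single i 1) (Pi.single j 1) : ℚ) : ℂ) =
      ((A.E (A.lam i) (A.lam j) : ℝ) : ℂ) := by
    rw [← hl i, ← hl j, ← A.om_coe]
    exact (Complex.ofReal_ratCast _).symm
  change _ = ((A.om (Pi.single i 1) (Pi.single j 1) : ℚ) : ℂ)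
  rw [h1, A.E_coe]
  unfold riemannForm
  have h2 : ∀ i k, (∑ j, (A.lam.repr (A.lam i) j : ℂ) * A.η j k) = A.η i k := by
    intro i k
    rw [Finset.sum_eq_single i]
    · rw [Basis.repr_self, Finsupp.single_eq_same]
      push_cast
      ring
    · intro j _ hj
      rw [Basis.repr_self, Finsupp.single_eq_of_ne hj]
      push_cast
      ring
    · intro h
      exact absurd (Finset.mem_univ _) h
  simp only [h2]
  rfl

theorem PlaneType.pd {k : ℕ} (h : PlaneType A k) :
    Nonempty (Pool.Agent.T9h38.RM.PD A (Fin g) k) := by
  obtain ⟨P, c, hP⟩ := h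
  choose s hs using hP.surjective
  have hcx : ∀ i, matE (2 * g) (P i) ∈ cx A.EA := by
    intro i
    have h1 : P i ∈ Submodule.span ℂ {Y | ∃ X ∈ A.EA, Y = Pool.Agent.Y102.toC X} := by
      refine Submodule.span_mono ?_ (hP.algebraic i)
      rintro _ ⟨T, hT, rfl⟩
      exact ⟨T, isEnd_iff.1 hT, toC_eq' T⟩
    have h2 := Submodule.mem_map_of_mem (f := (matE (2 * g)).toLinearMap) h1
    rw [map_lie] at h2
    exact h2
  have hmat : ∀ i j (T : Module.End ℚ A.H1), matE (2 * g) (P j) * T.baseChange ℂ *
      matE (2 * g) (P i) = matE (2 * g) (P j * toC A T * P i) := by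
    intro i j T
    rw [map_mul, map_mul, toC_eq', matE_toC]
  refine ⟨⟨fun i => matE (2 * g) (P i), c, s, hs, hcx, fun i => ?_, ?_, fun i => ?_,
    fun i X hX => ?_, fun i T hT => ?_, fun i j => ?_⟩⟩
  · rw [← map_mul, hP.projector]
  · rw [← map_sum, hP.sum, map_one]
  · rw [Pool.Agent.R917.GL.trace_matE, hP.plane]
  · have hc : Pool.Agent.Y102.toC X * P i = P i * Pool.Agent.Y102.toC X := by
      have h3 := Pool.Agent.R917.GL.CC_of_cx (bc_mem hX) _ (hcx i)
      rw [← matE_toC, ← map_mul, ← map_mul] at h3
      exact (matE (2 * g)).injective h3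
    rw [← matE_toC, ← map_mul, Pool.Agent.R917.GL.trace_matE]
    refine Pool.Agent.R917.GL.trace_sym ?_ hX hc
    rw [← riemannMatrix_eq]
    exact hP.symmetric i
  · obtain ⟨z, hz⟩ := hP.scalar i T (isEnd_iff.2 hT)
    refine ⟨z, ?_⟩
    rw [hmat, hz, map_smul]
  · rw [hP.classes]
    constructor
    · rintro ⟨T, hT, h0⟩
      refine ⟨T, isEnd_iff.1 hT, fun h => h0 ?_⟩
      rw [hmat, map_eq_zero_iff _ (matE (2 * g)).injective] at h
      exact h
    · rintro ⟨T, hT, h0⟩
      refine ⟨T, isEnd_iff.2 hT, fun h => h0 ?_⟩
      rw [hmat, h, map_zero]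

theorem Simple.noIdeals (h : Simple A) : Pool.Agent.N192.GP.NoIdeals A.NA := by
  intro N hN
  have h1 := h N fun Y hY => ⟨hN.1 hY, fun X hX => hN.2 X hX Y hY⟩
  by_cases h0 : N = ⊥
  · exact Or.inl h0
  · obtain ⟨Y, hY, hY0⟩ := (Submodule.ne_bot_iff N).1 h0
    exact Or.inr (le_antisymm hN.1 fun X hX => h1 Y hY hY0 X hX)

theorem Admissible.mem {r k : ℕ} (h : Admissible A r k) : Pool.Agent.T9h38.RM.Mem A k r := by
  obtain ⟨hr, h, -⟩ | ⟨hr, ⟨N, E, c, ⟨e1, e2⟩, hc, hl⟩, -⟩ := h
  · obtain ⟨D⟩ := h.pd
    exact .plane (Fin g) inferInstance D hr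
  · exact .spin ⟨N, E, c, by omega, by omega, e1, e2, hc, hl⟩ hr

theorem Admissible.noIdeals {r k : ℕ} (h : Admissible A r k) :
    Pool.Agent.N192.GP.NoIdeals A.NA := by
  obtain ⟨-, h, h'⟩ | ⟨-, -, h⟩ := h
  · obtain ⟨D⟩ := h.pd
    obtain ⟨D⟩ := D.out.1
    exact Pool.Agent.T9h38.RM.noIdeals_px D fun e he hee hc => h' e (isEnd_iff.2 he) hee
      fun T hT => hc T (isEnd_iff.1 hT)
  · exact h.noIdeals

end Kinds

/-! ### De Rham-Betti structures -/

/-- A de Rham-Betti structure of rank `d` over `ℚ̄`: the Betti side is the dual of `ℚ ^ d`, and the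
de Rham side is given by a basis, whose elements are considered as linear functions on `ℚ ^ d` with
complex values (the periods are the values on the rational vectors); the independence means that the
comparison is an isomorphism. -/
structure Structure (d : ℕ) where
  /-- the basis of the de Rham side -/
  dR : Fin d → ((Fin d → ℚ) →ₗ[ℚ] ℂ)
  indep : LinearIndependent ℂ dR

/-- The structure `h¹(A)`: the basis of the de Rham side consists of the `g` differentials of the first
kind and the `g` differentials of the second kind. -/
def h1 {g : ℕ} (A : AbVar g) : Structure (2 * g) where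
  dR p := A.dR (finSumFinEquiv.symm (finCongr (two_mul g) p))
  indep := by
    have h1 := (A.basis.reindex (Pool.Agent.N192.GP.eqv g)).linearIndependent
    have h2 : (fun p => A.dR (finSumFinEquiv.symm (finCongr (two_mul g) p))) =
        A.basis.reindex (Pool.Agent.N192.GP.eqv g) := by
      funext p
      rw [Basis.reindex_apply, A.coe_basis]
      rfl
    rw [h2]
    exact h1

section Structures

variable {d d' d'' : ℕ}

/-- `B` is a de Rham-Betti class in `V' ⊗ V (w)`. -/
def IsPairing (V' : Structure d') (V : Structure d) (w : ℤ)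
    (B : (Fin d' → ℚ) →ₗ[ℚ] (Fin d → ℚ) →ₗ[ℚ] ℚ) : Prop :=
  ∃ b : Fin d' → Fin d → QBar, ∀ u v,
    twist w * (B u v : ℂ) = ∑ i, ∑ j, algebraMap QBar ℂ (b i j) * (V'.dR i u * V.dR j v)

/-- `f` is (the transpose of) a homomorphism of de Rham-Betti structures from `V` to `V'`. -/
def IsHom (V' : Structure d') (V : Structure d) (f : (Fin d' → ℚ) →ₗ[ℚ] (Fin d → ℚ)) : Prop :=
  ∃ a : Fin d → Fin d' → QBar, ∀ i u, V.dR i (f u) = ∑ j, algebraMap QBar ℂ (a i j) * V'.dR j u

/-- `β` is (the transpose of) a homomorphism from `V` to `V' ⊗ V'' (w)`. -/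
def IsBilinear (V' : Structure d') (V'' : Structure d'') (V : Structure d) (w : ℤ)
    (β : (Fin d' → ℚ) →ₗ[ℚ] (Fin d'' → ℚ) →ₗ[ℚ] (Fin d → ℚ)) : Prop :=
  ∃ b : Fin d → Fin d' → Fin d'' → QBar, ∀ i u v, twist w * V.dR i (β u v) =
    ∑ j, ∑ k, algebraMap QBar ℂ (b i j k) * (V'.dR j u * V''.dR k v)

/-- `X` commutes with all de Rham-Betti endomorphisms. -/
def InCommutant (V : Structure d) (X : Module.End ℚ (Fin d → ℚ)) : Prop :=
  ∀ P, IsDeRhamBettiEnd QBar V.dR P → ∀ u, X (P u) = P (X u)

/-- The structure `V` is of CM type: all endomorphisms of the vector space which commute with the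
de Rham-Betti endomorphisms commute with each other. -/
def IsCM (V : Structure d) : Prop :=
  ∀ X Y, InCommutant V X → InCommutant V Y → ∀ u, X (Y u) = Y (X u)

/-- The smallest class of de Rham-Betti structures which contains the structures with the property `P`
and is closed under subobjects, quotients and extensions (`middle`: `V'' → V → V'` is exact in the
middle), tensor products and Tate twists (`tensor`: `V` is a subobject of `V' ⊗ V'' (w)`) and duals. -/
inductive Built (P : ∀ d : ℕ, Structure d → Prop) : ∀ {d : ℕ}, Structure d → Prop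
  | base {d : ℕ} {V : Structure d} (h : P d V) : Built P V
  | middle {d d' d'' : ℕ} {V' : Structure d'} {V : Structure d} {V'' : Structure d''}
      (f : (Fin d' → ℚ) →ₗ[ℚ] (Fin d → ℚ)) (p : (Fin d → ℚ) →ₗ[ℚ] (Fin d'' → ℚ))
      (hf : IsHom V' V f) (hp : IsHom V V'' p) (hex : ∀ u, p u = 0 → ∃ u', f u' = u)
      (h' : Built P V') (h'' : Built P V'') : Built P V
  | tensor {d d' d'' : ℕ} {V' : Structure d'} {V'' : Structure d''} {V : Structure d} (w : ℤ)
      (β : (Fin d' → ℚ) →ₗ[ℚ] (Fin d'' → ℚ) →ₗ[ℚ] (Fin d → ℚ)) (hβ : IsBilinear V' V'' V w β)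
      (hs : Submodule.span ℚ {x | ∃ u v, β u v = x} = ⊤)
      (h' : Built P V') (h'' : Built P V'') : Built P V
  | dual {d d' : ℕ} {V' : Structure d'} {V : Structure d} (w : ℤ)
      (B : (Fin d' → ℚ) →ₗ[ℚ] (Fin d → ℚ) →ₗ[ℚ] ℚ) (hB : IsPairing V' V w B)
      (hn : ∀ v, (∀ u, B u v = 0) → v = 0) (h' : Built P V') : Built P V

/-- The structure as a member of the family of all structures. -/
def toU (V : Structure d) : Pool.Agent.N192.GP.UU := ⟨d, ⟨V.dR, V.indep⟩⟩

theorem toU_h1 {I : Type} {g : I → ℕ} (A : ∀ i, AbVar (g i)) (i : I) :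
    toU (h1 (A i)) = ⟨2 * g i, Pool.Agent.N192.GP.DA A i⟩ := by
  unfold toU
  congr 1
  have h2 : (h1 (A i)).dR = Pool.Agent.N192.GP.ηA A i := by
    funext p
    unfold Pool.Agent.N192.GP.ηA
    rw [Basis.reindex_apply, (A i).coe_basis]
    rfl
  unfold Pool.Agent.N192.GP.DA
  congr 1

/-- The structures from which a perfect Lie algebra splits off form a class which is closed under the
constructions. -/
theorem Built.sep {s : Pool.Agent.N192.GP.UU} {P : ∀ d : ℕ, Structure d → Prop}
    (hperf : Pool.Agent.N192.GP.ggU s ≤
      Pool.Agent.N192.GP.brk (Pool.Agent.N192.GP.ggU s) (Pool.Agent.N192.GP.ggU s))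
    (hP : ∀ (d : ℕ) (U : Structure d), P d U → Pool.Agent.N192.GP.SepU s (toU U))
    {V : Structure d} (h : Built P V) : Pool.Agent.N192.GP.SepU s (toU V) := by
  induction h with
  | base h => exact hP _ _ h
  | @middle _ _ _ V₁ V V₂ f p hf hp hex _ _ ih' ih'' =>
    exact Pool.Agent.N192.GP.sepU_middle (V' := toU V₁) (V := toU V) (V'' := toU V₂)
      hperf hf hp hex ih' ih''
  | @tensor _ _ _ V₁ V₂ V w β hβ hs' _ _ ih' ih'' =>
    exact Pool.Agent.N192.GP.sepU_tensor (V' := toU V₁) (V'' := toU V₂) (V := toU V)
      hperf hβ hs' ih' ih''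
  | @dual _ _ V₁ V w B hB hn _ ih' =>
    exact Pool.Agent.N192.GP.sepU_dual (V' := toU V₁) (V := toU V) hperf hB hn ih'

end Structures

/-! ### Torsors -/

section Family

variable {K J : Type} [Fintype K] [DecidableEq K] [Fintype J] [DecidableEq J]
  {g : K → ℕ} (A : ∀ a, AbVar (g a)) {d : J → ℕ} (V : ∀ j, Structure (d j))

/-- The basis of the Betti realization of `h¹(∏ A a) ⊕ V`: the dual of the bases of the lattices, and the
basis of `V j`. -/
abbrev Row (g : K → ℕ) (d : J → ℕ) : Type := (Σ a, Fin (2 * g a)) ⊕ (Σ j, Fin (d j))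

/-- The basis of the de Rham realization of `h¹(∏ A a) ⊕ V`. -/
abbrev Col (g : K → ℕ) (d : J → ℕ) : Type := (Σ a, Fin (g a) ⊕ Fin (g a)) ⊕ (Σ j, Fin (d j))

/-- The matrix of periods of the abelian variety `A`: the differential forms of the basis of
`H¹_dR(A / ℚ̄)` are integrated over the basis of the lattice. -/
def periodsA {g : ℕ} (A : AbVar g) : Matrix (Fin (2 * g)) (Fin g ⊕ Fin g) ℂ :=
  Matrix.of fun p q => A.dR q (Pi.single p 1)

/-- The matrix of periods of `V`. -/
def periodsV {d : ℕ} (V : Structure d) : Matrix (Fin d) (Fin d) ℂ :=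
  Matrix.of fun p q => V.dR q (Pi.single p 1)

/-- The matrix of the comparison isomorphism of `h¹(∏ A a) ⊕ V`. -/
def periods : Matrix (Row g d) (Col g d) ℂ :=
  fromBlocks (blockDiagonal' fun a => periodsA (A a)) 0 0 (blockDiagonal' fun j => periodsV (V j))

/-- A subgroup of `GL_R(ℂ)` defined by polynomials with rational coefficients. -/
def IsAlgebraicSubgroup {R : Type} [Fintype R] [DecidableEq R] (G : Subgroup (GL R ℂ)) : Prop :=
  ∃ S : Set (MvPolynomial (R × R) ℚ), ∀ x : GL R ℂ, x ∈ G ↔
    ∀ p ∈ S, MvPolynomial.aeval (fun b : R × R => (x : Matrix R R ℂ) b.1 b.2) p = 0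

/-- The matrix `P` belongs to a torsor `G · T⁻¹` of `G` defined over `ℚ̄`. -/
def HasPoint {R C : Type} [Fintype R] [DecidableEq R] [Fintype C] (P : Matrix R C ℂ)
    (G : Subgroup (GL R ℂ)) : Prop :=
  ∃ T : Matrix C R ℂ, (∀ i j, IsAlgebraic ℚ (T i j)) ∧ ∃ x ∈ G, (x : Matrix R R ℂ) = P * T

/-- The Hodge structure of `H¹(A)`: the complex number `z` acts on `H_1(A, ℝ) = ℂ ^ g` by
multiplication, and on `H¹(A, ℝ)` by the transposed map, here in the basis of `H¹(A, ℚ)` which is
dual to the basis of the lattice. -/
def hodge {g : ℕ} (A : AbVar g) (z : ℂ) : Matrix (Fin (2 * g)) (Fin (2 * g)) ℂ :=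
  Matrix.of fun i j => ((A.lam.repr (z • A.lam i) j : ℝ) : ℂ)

/-- The group `Hg(∏ A a) × 1`: the smallest algebraic group over `ℚ` which contains the action of the
complex numbers of absolute value one on `H¹(∏ A a)`, acting trivially on `V`. -/
def hodgeGroup (d : J → ℕ) : Subgroup (GL (Row g d) ℂ) :=
  sInf {G | IsAlgebraicSubgroup G ∧ ∀ z : ℂ, ‖z‖ = 1 → ∃ x ∈ G,
    (x : Matrix (Row g d) (Row g d) ℂ) = fromBlocks (blockDiagonal' fun a => hodge (A a) z) 0 0 1}

/-- The Hodge group of `∏ A a` splits off from the period torsor of `V = ⊕ V j`. -/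
def TorsorSplits : Prop :=
  ∀ G : Subgroup (GL (Row g d) ℂ), IsAlgebraicSubgroup G → HasPoint (periods A V) G →
    hodgeGroup A d ≤ G ∧ ∀ z : ℂ, z ≠ 0 → ∃ x ∈ G, ∃ v,
      (x : Matrix (Row g d) (Row g d) ℂ) =
        fromBlocks (blockDiagonal' fun a => hodge (A a) z) 0 0 v

end Family

/-- There are no nonzero homomorphisms from `A` to `A'`: linear maps of the rational homology which
respect the Hodge structures and the de Rham structures. -/
def NoHom {g g' : ℕ} (A : AbVar g) (A' : AbVar g') : Prop :=
  ∀ f : A.H1 →ₗ[ℚ] A'.H1,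
    (∃ Q : (Fin g → ℂ) →ₗ[ℂ] (Fin g' → ℂ), ∀ w, A'.per (f w) = Q (A.per w)) →
    (∃ a : (Fin g' ⊕ Fin g') → (Fin g ⊕ Fin g) → QBar, ∀ p w,
      A'.dR p (f w) = ∑ q, algebraMap QBar ℂ (a p q) * A.dR q w) → f = 0

/-- The smallest dimension of a nontrivial representation of `so(r)`, for `r = 3` and for `r ≥ 6`. -/
def bound (r : ℕ) : ℕ := if r = 3 then 2 else if r = 6 then 4 else r

/-- The main step. -/
theorem torsorSplits {K J : Type} [Fintype K] [DecidableEq K] [Fintype J] [DecidableEq J]
    {g : K → ℕ} (A : ∀ a, AbVar (g a)) {d : J → ℕ} (V : ∀ j, Structure (d j)) {r k : K → ℕ}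
    (hA : ∀ i, Admissible (A i) (r i) (k i)) (hom : ∀ i i', i ≠ i' → NoHom (A i) (A i'))
    (hsep : ∀ i j, Pool.Agent.N192.GP.SepU ⟨2 * g i, Pool.Agent.N192.GP.DA A i⟩ (toU (V j))) :
    TorsorSplits A V := by
  intro G hG hP
  let V' : ∀ j, Pool.Agent.N192.GP.DRS (d j) := fun j => ⟨(V j).dR, (V j).indep⟩
  have hfit : Pool.Agent.T9h38.RM.Fit A V' :=
    Pool.Agent.T9h38.RM.fit_of (fun i => (hA i).mem) (fun i => (hA i).noIdeals)
      (fun i i' hne f hf => hom i i' hne f hf.1 hf.2) hsep
  obtain ⟨T, hT, x, hx, hxT⟩ := hP
  have hH := Pool.Agent.N192.GT.pt_of (A := A) (V := V') hG hT hx hxT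
  refine ⟨sInf_le ⟨hG, fun z hz => ?_⟩, fun z hz => ?_⟩
  · obtain ⟨y, hy, hyz⟩ := hfit.rho_mem hH hz
    refine ⟨y, hy, hyz.trans ?_⟩
    unfold Pool.Agent.N192.GT.rho
    rw [one_smul]
    rfl
  · obtain ⟨v, y, hy, hyz⟩ := hfit.torus_mem hH hz
    exact ⟨y, hy, v, hyz⟩

/-- **The exceptional abelian varieties of a de Rham-Betti structure.** -/
theorem result {I : Type} {g : I → ℕ} (A : ∀ i, AbVar (g i)) (r k : I → ℕ)
    (hA : ∀ i, Admissible (A i) (r i) (k i)) :
    ∃ E : ∀ d : ℕ, Structure d → Set I,
      (∀ (d : ℕ) (U : Structure d) (i : I), IsCM U → i ∉ E d U) ∧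
      (∀ i j : I, NoHom (A i) (A j) → NoHom (A j) (A i) → i ∉ E (2 * g j) (h1 (A j))) ∧
      (∀ (d : ℕ) (U : Structure d) (S : Finset I), (∀ i ∈ S, i ∈ E d U) →
        (∀ i ∈ S, ∀ j ∈ S, i ≠ j → NoHom (A i) (A j)) → ∑ i ∈ S, k i * bound (r i) ≤ d) ∧
      ∀ {K J : Type} [Fintype K] [DecidableEq K] [Fintype J] [DecidableEq J] (e : K → I)
        {d : J → ℕ} (V : ∀ j, Structure (d j)),
        (∀ a b, a ≠ b → NoHom (A (e a)) (A (e b))) →
        (∀ a j, Built (fun d U => e a ∉ E d U) (V j)) → TorsorSplits (fun a => A (e a)) V := by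
  classical
  have hperf : ∀ i, Pool.Agent.N192.GP.ggU ⟨2 * g i, Pool.Agent.N192.GP.DA A i⟩ ≤
      Pool.Agent.N192.GP.brk (Pool.Agent.N192.GP.ggU ⟨2 * g i, Pool.Agent.N192.GP.DA A i⟩)
        (Pool.Agent.N192.GP.ggU ⟨2 * g i, Pool.Agent.N192.GP.DA A i⟩) := fun i =>
    (hA i).mem.perfU
  refine ⟨fun d U => {i | ¬Pool.Agent.N192.GP.SepU
    ⟨2 * g i, Pool.Agent.N192.GP.DA A i⟩ (toU U)}, fun d U i h h' => ?_, fun i j h h' hE => ?_,
    fun d U S hS hom => ?_, fun e d V hom hbuilt => ?_⟩
  · exact h' (Pool.Agent.T9h38.RM.sepU_cm (hperf i) fun X Y hX hY => LinearMap.ext (h X Y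
      (fun P hP u => LinearMap.congr_fun (hX P hP) u)
      fun P hP u => LinearMap.congr_fun (hY P hP) u))
  · apply hE
    rw [toU_h1 A j]
    exact Pool.Agent.T9h38.RM.sepU_pairA (I := Bool) (J := Empty) (g := fun b => g (cond b j i))
      (A := fun b => A (cond b j i)) (V := fun x => x.elim) (d := fun x => x.elim)
      (i := false) (i' := true) (Pool.Agent.T9h38.RM.sep_mem (hA i).mem (hA j).mem (hA i).noIdeals
        (hA j).noIdeals (fun f hf => h f hf.1 hf.2) fun f hf => h' f hf.1 hf.2)
  · have h1 := Pool.Agent.T9h38.RM.exc_dimB (I := S) (A := fun i : S => A i.1)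
      (r := fun i => r i.1) (k := fun i => k i.1) (fun i => (hA i.1).mem)
      (fun i => (hA i.1).noIdeals)
      (fun i i' hne f hf => hom i.1 i.2 i'.1 i'.2 (fun h => hne (Subtype.ext h)) f hf.1 hf.2)
      (U := ⟨U.dR, U.indep⟩) (fun i => hS i.1 i.2)
    rw [Finset.sum_coe_sort S (fun i => k i * Pool.Agent.T9h38.RM.bet (r i))] at h1
    exact h1
  · refine torsorSplits (fun a => A (e a)) V (r := fun a => r (e a)) (k := fun a => k (e a))
      (fun a => hA (e a)) hom fun a j => ?_
    exact (hbuilt a j).sep (hperf (e a)) fun d U hU => not_not.1 hU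

/-! ### Examples -/

/-- Abelian varieties with real multiplication of maximal degree are of the first kind: let `End(A) ⊗ ℚ`
be a number field `F` of degree `g = dim A`, whose elements are symmetric for the polarization (this
is the case if `F` is totally real). Then `k = g`. -/
theorem realMultiplication {g : ℕ} (A : AbVar g) {F : Type} [Field F] [NumberField F]
    (hF : finrank ℚ F = g) (φ : F →ₐ[ℚ] Module.End ℚ A.H1) (hφ : ∀ T, IsEnd A T ↔ ∃ x, T = φ x)
    (hs : ∀ x, (toC A (φ x))ᵀ * riemannMatrix A = riemannMatrix A * toC A (φ x)) :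
    Admissible A 3 g := by
  classical
  obtain ⟨P, s, h1, h2, h3, h4, h5⟩ := Pool.Agent.T9h38.RM.exists_emb hF rfl φ
  have hPP : ∀ i, P i * P i = P i := fun i => by rw [h2, if_pos rfl]
  have hone : toC A 1 = 1 := (toC_eq' 1).trans Pool.Agent.R917.toC_one
  have hE : ∀ x, IsEnd A (φ x) := fun x => (hφ _).2 ⟨x, rfl⟩
  have hmul : ∀ x i, toC A (φ x) * P i = s i x • P i := fun x i => by
    rw [toC_eq']
    exact h5 x i
  refine .plane rfl ⟨P, id, fun i => ?_, hPP, h3, h4, fun i => ?_, fun i T hT => ?_, fun i j => ?_,
    Function.surjective_id⟩ fun e he hee _ => ?_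
  · refine Submodule.span_mono ?_ (h1 i)
    rintro _ ⟨x, rfl⟩
    exact ⟨φ x, hE x, (toC_eq' _).symm⟩
  · have h6 : ∀ M ∈ Submodule.span ℂ {M | ∃ x, M = Pool.Agent.Y102.toC (φ x)},
        Mᵀ * riemannMatrix A = riemannMatrix A * M := by
      intro M hM
      induction hM using Submodule.span_induction with
      | mem M hM =>
        obtain ⟨x, rfl⟩ := hM
        have h7 := hs x
        rw [toC_eq'] at h7
        exact h7
      | zero => rw [Matrix.transpose_zero, Matrix.zero_mul, Matrix.mul_zero]
      | add M N _ _ hM hN => rw [Matrix.transpose_add, Matrix.add_mul, Matrix.mul_add, hM, hN]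
      | smul a M _ hM => rw [Matrix.transpose_smul, Matrix.smul_mul, Matrix.mul_smul, hM]
    exact h6 _ (h1 i)
  · obtain ⟨x, rfl⟩ := (hφ T).1 hT
    exact ⟨s i x, by rw [Matrix.mul_assoc, hmul, Matrix.mul_smul, hPP]⟩
  · constructor
    · intro hij
      have hij' : i = j := hij
      subst hij'
      refine ⟨1, (hφ 1).2 ⟨1, (map_one φ).symm⟩, ?_⟩
      rw [hone, Matrix.mul_one, hPP]
      intro h0
      have h6 := h4 i
      rw [h0, Matrix.trace_zero] at h6
      norm_num at h6
    · rintro ⟨T, hT, h0⟩
      by_contra hij
      obtain ⟨x, rfl⟩ := (hφ T).1 hT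
      apply h0
      rw [Matrix.mul_assoc, hmul, Matrix.mul_smul, h2, if_neg (fun h => hij h.symm), smul_zero]
  · obtain ⟨x, rfl⟩ := (hφ e).1 he
    rw [← map_mul] at hee
    by_cases hx : x * x = x
    · have h6 : x * (x - 1) = 0 := by linear_combination hx
      rcases mul_eq_zero.1 h6 with h7 | h7
      · left
        rw [h7, map_zero]
      · right
        rw [sub_eq_zero.1 h7, map_one]
    · left
      have h6 : φ (x * x - x) = 0 := by rw [map_sub, hee, sub_self]
      have h7 : (1 : Module.End ℚ A.H1) = 0 := by
        rw [← map_one φ, ← inv_mul_cancel₀ (sub_ne_zero.2 hx), map_mul, h6, mul_zero]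
      rw [← mul_one (φ x), h7, mul_zero]

/-- Elliptic curves without complex multiplication are of the first kind, with `k = 1`. -/
theorem elliptic (A : AbVar 1) (h : ∀ T, IsEnd A T → ∃ q : ℚ, T = q • 1) : Admissible A 3 1 := by
  have hC : ∀ q : ℚ, toC A (q • 1) = (q : ℂ) • 1 := by
    intro q
    ext i j
    rw [toC, Matrix.of_apply, LinearMap.smul_apply, Module.End.one_apply, Matrix.smul_apply,
      Pi.smul_apply, Matrix.one_apply, Pi.single_apply, smul_eq_mul, smul_eq_mul]
    split_ifs <;> simp
  have h1 : IsEnd A 1 := isEnd_iff.2 fun X _ => (mul_one X).trans (one_mul X).symm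
  have hC1 : toC A 1 = 1 := by
    have h2 := hC 1
    rwa [one_smul, Rat.cast_one, one_smul] at h2
  refine .plane rfl ⟨fun _ => 1, fun _ => 0, fun _ => ?_, fun _ => mul_one _, ?_, fun _ => ?_,
    fun _ => ?_, fun _ T hT => ?_, fun i j => ?_, fun i => ⟨0, Subsingleton.elim _ _⟩⟩
    fun e he hee _ => ?_
  · exact Submodule.subset_span ⟨1, h1, hC1.symm⟩
  · rw [Finset.sum_const, Finset.card_univ, Fintype.card_fin, one_smul]
  · rw [Matrix.trace_one, Fintype.card_fin]
    norm_num
  · rw [Matrix.transpose_one, Matrix.one_mul, Matrix.mul_one]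
  · obtain ⟨q, rfl⟩ := h T hT
    exact ⟨q, by rw [hC, Matrix.mul_one, Matrix.one_mul]⟩
  · refine ⟨fun _ => ⟨1, h1, ?_⟩, fun _ => rfl⟩
    rw [hC1, Matrix.mul_one, Matrix.mul_one]
    intro h0
    have h2 := congrFun (congrFun h0 0) 0
    rw [Matrix.one_apply_eq, Matrix.zero_apply] at h2
    exact one_ne_zero h2
  · obtain ⟨q, rfl⟩ := h e he
    have h2 := congrFun (LinearMap.congr_fun hee (Pi.single 0 1)) 0
    rw [Module.End.mul_apply, LinearMap.smul_apply, LinearMap.smul_apply, Module.End.one_apply,
      Module.End.one_apply, Pi.smul_apply, Pi.smul_apply, Pi.single_eq_same, smul_eq_mul,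
      smul_eq_mul, mul_one] at h2
    have h4 : q * (q - 1) = 0 := by linear_combination h2
    rcases mul_eq_zero.1 h4 with h3 | h3
    · left
      rw [h3, zero_smul]
    · right
      rw [sub_eq_zero.1 h3, one_smul]

end Pool.Agent.Results.MP_470b79_ag.GLTwoSplitTorsors
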