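import Pool.Agent.T9h38.TM.QFam

set_option autoImplicit false

/-!
# The period torsor of abelian varieties of Mumford's type, K3 surfaces and an arbitrary motive

Let `A i`, `i ∈ I`, be a family of abelian varieties over the field `ℚ̄` of algebraic numbers (the set `I`
may be infinite, and it may contain all abelian varieties with the properties below), and let `V` be
**any** de Rham-Betti object over `ℚ̄`, for example the realization of any André motive. Nothing is
assumed about periods: `AbVar` is the description of an abelian variety over `ℚ̄` by theta functions, and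
`dR` are its periods. Each `A i` is of one of the following two kinds (`Admissible`), and the Lie algebra
of its Hodge group is simple over `ℚ` (`Simple`).

* (`r i = 3`) **Tensor type with `k i` colours** (`TensorType`): the complex Lie algebra is `sl(2) ^ k i`,
  and `H_1(A i, ℂ)` is a multiple of the tensor product of the standard representations of the `k i`
  factors. For example: elliptic curves without complex multiplication and fake elliptic curves
  (`k i = 1`); the four-dimensional abelian varieties with `End(A i) = ℤ` which were found by **Mumford**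
  (`k i = 3`) and their generalisations for totally real fields `F` of degree `k i` and quaternion algebras
  over `F`; the abelian fourfolds whose endomorphism algebra is a definite quaternion algebra over `ℚ`
  (`k i = 2`); and the Kuga-Satake varieties of K3 surfaces such that the transcendental lattice is of
  dimension three over its endomorphism field, which is totally real of degree `k i`.
* (`r i ≥ 6`) **Spin type with `k i` colours of rank `r i`** (`SpinType`), for example the Kuga-Satake
  varieties of K3 surfaces such that the transcendental lattice is of dimension `r i ≥ 6` over its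
  endomorphism field, which is totally real of degree `k i`.

**Theorem.** For every de Rham-Betti structure `U` (of any rank) there is a set `E U` of *exceptional*
indices such that
* (a) `i` is not in `E U` if `U` is of CM type, and `i` is not in `E (h¹(A j))` if there are no
  homomorphisms from `A i` to `A j`;
* (b) `E U` is finite up to isogeny: if `S` is a finite subset of `E U`, such that there are no
  homomorphisms between `A i` and `A j` for different elements `i`, `j` of `S`, then the sum over `S` of
  the numbers `k i * b (r i)` is at most the rank of `U`, where `b 3 = 2`, `b 6 = 4` and `b r = r` for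
  `r ≥ 7` (`bound`). In particular (one element) `i` is not in `E U` if the rank of `U` is smaller than
  `k i * b (r i)`;
* (c) for all finite families `A' a` of the `A i` without homomorphisms between different members, and
  all finite families `V j` which are built from structures for which the `A' a` are not exceptional
  (`Built`), the Hodge group of `∏ A' a` splits off from the period torsor of `V = ⊕ V j`
  (`TorsorSplits`): let `G` be an algebraic subgroup of `GL(M_B)`, `M = h¹(∏ A' a) ⊕ V`, defined over
  `ℚ`, such that the comparison isomorphism of `M` is a point of a torsor of `G` over `ℚ̄` (`HasPoint`).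
  Then
  1. `G` contains the group `Hg(∏ A' a) × 1`, where `Hg(∏ A' a)` is the Hodge group of `∏ A' a`, and `1`
    is the trivial group acting on `V` (`hodgeGroup`);
  2. for every nonzero complex number `z` there is an element of `G` which acts on `H¹(∏ A' a)` by the
    Hodge structure `h(z)`. So the projection of `G` to `GL(H¹(∏ A' a))` contains the Mumford-Tate
    group of `∏ A' a`. (If there are no `V j`, then `G` itself contains the Mumford-Tate group.)

The group `G_dRB(M)` of the problem is the smallest group `G` as in (c). So (c) says that `G_dRB(M)` is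
mapped onto `G_dRB(V)` and the kernel contains `Hg(∏ A' a)`. There is one assignment `E` for all
structures, all finite subfamilies and all constructions.

## What this says about `Ω^dRB = Ω^And`

Let `N` be an André motive whose realization is `V`, such that the Tate motive `ℚ(1)` is in `⟨N⟩` (one
may add it to `N`), and let `M = h¹(∏ A' a) ⊕ N`. By the theorems of Deligne (Hodge classes on abelian
varieties are absolute) and André (they are motivated) the group `G_And(∏ A' a)` is the Mumford-Tate
group. So the kernel of `G_And(M) → G_And(N)` consists of elements of the Mumford-Tate group of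
`∏ A' a` which act trivially on `ℚ(1)`, that is, it is contained in `Hg(∏ A' a) × 1`. The group
`G_dRB(M)` contains `Hg(∏ A' a) × 1` by the theorem, and it is mapped onto `G_dRB(N)`. Therefore **the
equality `Ω^dRB = Ω^And` holds for `M` if and only if it holds for `N`.**

Examples.
* `N = ℚ(1)`: the equality `Ω^dRB = Ω^And` holds for all products of powers of abelian fourfolds of
  Mumford's type. On these powers there are Hodge classes which are not generated by divisors and
  which are not known to be algebraic. So for these varieties all de Rham-Betti classes are motivated, and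
  some of them are exceptional.
* `N = ℚ(1)`: the equality holds for all products of K3 surfaces whose transcendental lattice is of
  dimension `3`, or at least `6`, over its endomorphism field, if this field is totally real.
* `N` of potential CM type with the equality, for example `N = h¹` of the abelian varieties with
  complex multiplication of `CMPeriodTorsors`: by (a) all these products may be multiplied with abelian
  varieties with complex multiplication.
* Let `N` be an arbitrary André motive. All but finitely many isogeny classes split off from `N`, in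
  the same product: for example there are at most `rank(N) / 6` isogeny classes of abelian varieties of
  Mumford's type such that the equality for a product of other ones with `N` is not equivalent
  to the equality for `N`. For one abelian fourfold `A` of Mumford's type and every motive `N` of rank at most
  five (for example `h¹` of an abelian surface, or `h²` of a surface with `b_2 ≤ 5`) the equality for
  `h(A) ⊕ N` is equivalent to the equality for `N`.

## Relation to the files of the library

`SplitTorsors` (a file of the library) is the analogous statement for abelian varieties of spin type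
with Clifford generators; there is at most one member of rank smaller than five, and then `V` is of CM
type; the bounds for the exceptions and the pairs of members are only considered for ranks `≥ 6`. New
here: any number of members of rank three, together with members of rank `≥ 6` and with arbitrary
`V`; the bound for the exceptions of all kinds; and the first kind is given by quaternion units, so that
the ring of endomorphisms may be `ℤ` (nine Clifford generators do not act on the homology of a fourfold of
Mumford's type). `GLTwoSplitTorsors` is the case of sums (instead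
of tensor products) of standard representations, which are the abelian varieties with real or
quaternionic multiplication of maximal degree; the two theorems meet in the case `k i = 1`.

## Proof

As in `SplitTorsors`, the Lie algebra `𝔩` generated by the logarithmic derivatives of the matrices of
periods of all structures at once is used. It is shown that the image of `𝔩` in each member is the
Lie algebra of the Hodge group: its commutant is `End(A i)` by the theorem of Schneider and Lang
(Wüstholz), and the image of `𝔩` is generated over `ℂ` by its brackets, so the subalgebra is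
everything, since a subalgebra of `sl(2) ^ k` with the same commutant on the tensor product is
everything (`Tens.fine`). The members are pairwise independent: assume that `A i` and `A j` are
linked, so that there is an isomorphism `ν` of the two complex Lie algebras, whose graph is the image
of `𝔩`. It maps the simple factors of one to those of the other (`LkQ.colour`), so it is inner after a
permutation: the images of the quaternion units are again of square `-1` (`LkQ.nu`), because
`(ad Y) ^ 3 = -4 ad Y` holds for both. An average over the finite group which is generated by the quaternion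
units gives a nonzero map `H_1(A i, ℂ) → H_1(A j, ℂ)` which is compatible with `ν`
(`LkQ.exists_T`), and its rational components are homomorphisms of de Rham-Betti structures, so
homomorphisms of the abelian varieties (`inter_zero`). The Lie algebra `so(r)`, `r ≥ 6`, has no
quotient `sl(2)`, so that members of different kinds are independent (`no_linkQ`). Since the Lie
algebras are perfect, pairwise independence is enough (lemma of Ribet). The bound in (b) is obtained
by reduction to commuting representations of the simple factors without invariants.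
-/

open Module Matrix Pool.Agent.Y102 Pool.Agent.W516.DR Pool.Agent.H204R3.GP

noncomputable section

namespace Pool.Agent.Results.MP_470b79_ag.TensorSplitTorsors

/-- The period `(2 π i) ^ w` of the Tate twist. -/
def twist (w : ℤ) : ℂ := (2 * Real.pi * Complex.I) ^ w

section Kinds

variable {g : ℕ} (A : AbVar g)

/-! ### The Lie algebra -/

/-- The algebra of the endomorphisms of `H_1(A, ℂ)`, as matrices for the basis of the lattice. -/
abbrev EndC (_ : AbVar g) : Type := Matrix (Fin (2 * g)) (Fin (2 * g)) ℂ

/-- The matrix of the extension of an endomorphism of `H_1(A, ℚ)` to `H_1(A, ℂ)`. -/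
def toC (X : Module.End ℚ A.H1) : EndC A := Matrix.of fun i j => (X (Pi.single j 1) i : ℂ)

/-- The multilinear forms in `2m` variables in the rational homology. -/
abbrev Form (m : ℕ) : Type := MultilinearMap ℚ (fun _ : Fin m × Fin 2 => A.H1) ℚ

/-- The endomorphism `X` annihilates the form `φ` (as a derivation). -/
def Annihilates {m : ℕ} (X : Module.End ℚ A.H1) (φ : Form A m) : Prop :=
  ∀ v, ∑ k, φ (Function.update v k (X (v k))) = 0

/-- `X` is in the Lie algebra `𝔤`: it annihilates all classes in `H^1(A) ^ {⊗ 2m} (m)` that are Hodge
classes and de Rham-Betti classes. -/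
def InLie (X : Module.End ℚ A.H1) : Prop :=
  ∀ (m : ℕ) (φ : Form A m), IsHodgeTensor (A.per : A.H1 →+ (Fin g → ℂ)) φ →
    IsDeRhamBettiForm QBar A.dR (2 * Real.pi * Complex.I) m φ → Annihilates A X φ

/-- The complex Lie algebra `𝔤 ⊗ ℂ`, acting on `H_1(A, ℂ)`. -/
def lieC : Submodule ℂ (EndC A) := Submodule.span ℂ {Y | ∃ X, InLie A X ∧ Y = toC A X}

/-! ### The first kind -/

/-- The Lie algebra `𝔤 ⊗ ℂ` is `sl(2) ^ k`, and `H_1(A, ℂ)` is a multiple of the tensor product of the
standard representations of the `k` factors: the factor `s` is spanned by `x s`, `y s` and `x s * y s`,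
where `x s` and `y s` satisfy the relations of the quaternion units. -/
def TensorType (k : ℕ) : Prop :=
  0 < g ∧ ∃ x y : Fin k → EndC A, (∀ s, x s * x s = -1 ∧ y s * y s = -1 ∧ y s * x s = -(x s * y s)) ∧
    (∀ s t, s ≠ t → x s * x t = x t * x s ∧ x s * y t = y t * x s ∧ y s * y t = y t * y s) ∧
    lieC A = Submodule.span ℂ {Y | ∃ s, Y = x s ∨ Y = y s ∨ Y = x s * y s}

/-! ### The second kind -/

/-- The `E i` are the generators of a Clifford algebra acting on `H_1(A, ℂ)`. -/
def Clifford {N : ℕ} (E : Fin N → EndC A) : Prop :=
  (∀ i, E i * E i = 1) ∧ ∀ i j, i ≠ j → E i * E j = -(E j * E i)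

/-- Every colour `σ` is the colour `c j` of exactly `r` of the `j`. -/
def Uniform {N k : ℕ} (c : Fin N → Fin k) (r : ℕ) : Prop :=
  ∀ σ, (Finset.univ.filter fun j => c j = σ).card = r

/-- The Lie algebra `𝔤 ⊗ ℂ` is a sum of `k` orthogonal Lie algebras `so(r)`, acting by spin
representations. -/
def SpinType (r k : ℕ) : Prop :=
  ∃ (N : ℕ) (E : Fin N → EndC A) (c : Fin N → Fin k), Clifford A E ∧
    Uniform c r ∧ lieC A = Submodule.span ℂ {Y | ∃ i j, i ≠ j ∧ c i = c j ∧ Y = E i * E j}

/-- `N` is an ideal of the Lie algebra `𝔤`. -/
def IsIdeal (N : Submodule ℚ (Module.End ℚ A.H1)) : Prop :=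
  ∀ Y ∈ N, InLie A Y ∧ ∀ X, InLie A X → X * Y - Y * X ∈ N

/-- The Lie algebra `𝔤` has no ideals except zero and `𝔤`. -/
def Simple : Prop :=
  ∀ N, IsIdeal A N → ∀ Y ∈ N, Y ≠ 0 → ∀ X, InLie A X → X ∈ N

/-- The abelian varieties which are considered: tensor type with `k` colours (with `r = 3`), or spin
type with `k` colours of rank `r ≥ 6`, with a simple Lie algebra. -/
inductive Admissible (r k : ℕ) : Prop
  | tens (hr : r = 3) (h : TensorType A k) (h' : Simple A)
  | spin (hr : 6 ≤ r) (h : SpinType A r k) (h' : Simple A)

variable {A}

theorem Simple.noIdeals (h : Simple A) : Pool.Agent.N192.GP.NoIdeals A.NA := by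
  intro N hN
  have h1 := h N fun Y hY => ⟨hN.1 hY, fun X hX => hN.2 X hX Y hY⟩
  by_cases h0 : N = ⊥
  · exact Or.inl h0
  · obtain ⟨Y, hY, hY0⟩ := (Submodule.ne_bot_iff N).1 h0
    exact Or.inr (le_antisymm hN.1 fun X hX => h1 Y hY hY0 X hX)

theorem Admissible.mem {r k : ℕ} (h : Admissible A r k) : Pool.Agent.T9h38.TM.MemT A k r := by
  obtain ⟨hr, ⟨hg, x, y, h1, h2, hl⟩, -⟩ | ⟨hr, ⟨N, E, c, ⟨e1, e2⟩, hc, hl⟩, -⟩ := h
  · exact .tens (Pool.Agent.T9h38.TM.tens_of_mat hg x y (fun s => (h1 s).1) (fun s => (h1 s).2.1)
      (fun s => (h1 s).2.2) (fun s t h => (h2 s t h).1) (fun s t h => (h2 s t h).2.1)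
      (fun s t h => (h2 s t h).2.2) hl) hr
  · exact .spin ⟨N, E, c, by omega, by omega, e1, e2, hc, hl⟩ hr

theorem Admissible.noIdeals {r k : ℕ} (h : Admissible A r k) :
    Pool.Agent.N192.GP.NoIdeals A.NA := by
  obtain ⟨-, -, h⟩ | ⟨-, -, h⟩ := h
  · exact h.noIdeals
  · exact h.noIdeals

end Kinds

/-! ### De Rham-Betti structures -/

/-- A de Rham-Betti structure of rank `d` over `ℚ̄`: the Betti side is the dual of `ℚ ^ d`, and the
de Rham side is given by a basis, whose elements are considered as linear functions on `ℚ ^ d` with
complex values (the periods are the values on the rational vectors); the independence means that the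
comparison is an isomorphism. -/
structure Structure (d : ℕ) where
  /-- the basis of the de Rham side -/
  dR : Fin d → ((Fin d → ℚ) →ₗ[ℚ] ℂ)
  indep : LinearIndependent ℂ dR

/-- The structure `h¹(A)`: the basis of the de Rham side consists of the `g` differentials of the first
kind and the `g` differentials of the second kind. -/
def h1 {g : ℕ} (A : AbVar g) : Structure (2 * g) where
  dR p := A.dR (finSumFinEquiv.symm (finCongr (two_mul g) p))
  indep := by
    have h1 := (A.basis.reindex (Pool.Agent.N192.GP.eqv g)).linearIndependent
    have h2 : (fun p => A.dR (finSumFinEquiv.symm (finCongr (two_mul g) p))) =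
        A.basis.reindex (Pool.Agent.N192.GP.eqv g) := by
      funext p
      rw [Basis.reindex_apply, A.coe_basis]
      rfl
    rw [h2]
    exact h1

section Structures

variable {d d' d'' : ℕ}

/-- `B` is a de Rham-Betti class in `V' ⊗ V (w)`. -/
def IsPairing (V' : Structure d') (V : Structure d) (w : ℤ)
    (B : (Fin d' → ℚ) →ₗ[ℚ] (Fin d → ℚ) →ₗ[ℚ] ℚ) : Prop :=
  ∃ b : Fin d' → Fin d → QBar, ∀ u v,
    twist w * (B u v : ℂ) = ∑ i, ∑ j, algebraMap QBar ℂ (b i j) * (V'.dR i u * V.dR j v)

/-- `f` is (the transpose of) a homomorphism of de Rham-Betti structures from `V` to `V'`. -/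
def IsHom (V' : Structure d') (V : Structure d) (f : (Fin d' → ℚ) →ₗ[ℚ] (Fin d → ℚ)) : Prop :=
  ∃ a : Fin d → Fin d' → QBar, ∀ i u, V.dR i (f u) = ∑ j, algebraMap QBar ℂ (a i j) * V'.dR j u

/-- `β` is (the transpose of) a homomorphism from `V` to `V' ⊗ V'' (w)`. -/
def IsBilinear (V' : Structure d') (V'' : Structure d'') (V : Structure d) (w : ℤ)
    (β : (Fin d' → ℚ) →ₗ[ℚ] (Fin d'' → ℚ) →ₗ[ℚ] (Fin d → ℚ)) : Prop :=
  ∃ b : Fin d → Fin d' → Fin d'' → QBar, ∀ i u v, twist w * V.dR i (β u v) =
    ∑ j, ∑ k, algebraMap QBar ℂ (b i j k) * (V'.dR j u * V''.dR k v)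

/-- `X` commutes with all de Rham-Betti endomorphisms. -/
def InCommutant (V : Structure d) (X : Module.End ℚ (Fin d → ℚ)) : Prop :=
  ∀ P, IsDeRhamBettiEnd QBar V.dR P → ∀ u, X (P u) = P (X u)

/-- The structure `V` is of CM type: all endomorphisms of the vector space which commute with the
de Rham-Betti endomorphisms commute with each other. -/
def IsCM (V : Structure d) : Prop :=
  ∀ X Y, InCommutant V X → InCommutant V Y → ∀ u, X (Y u) = Y (X u)

/-- The smallest class of de Rham-Betti structures which contains the structures with the property `P`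
and is closed under subobjects, quotients and extensions (`middle`: `V'' → V → V'` is exact in the
middle), tensor products and Tate twists (`tensor`: `V` is a subobject of `V' ⊗ V'' (w)`) and duals. -/
inductive Built (P : ∀ d : ℕ, Structure d → Prop) : ∀ {d : ℕ}, Structure d → Prop
  | base {d : ℕ} {V : Structure d} (h : P d V) : Built P V
  | middle {d d' d'' : ℕ} {V' : Structure d'} {V : Structure d} {V'' : Structure d''}
      (f : (Fin d' → ℚ) →ₗ[ℚ] (Fin d → ℚ)) (p : (Fin d → ℚ) →ₗ[ℚ] (Fin d'' → ℚ))
      (hf : IsHom V' V f) (hp : IsHom V V'' p) (hex : ∀ u, p u = 0 → ∃ u', f u' = u)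
      (h' : Built P V') (h'' : Built P V'') : Built P V
  | tensor {d d' d'' : ℕ} {V' : Structure d'} {V'' : Structure d''} {V : Structure d} (w : ℤ)
      (β : (Fin d' → ℚ) →ₗ[ℚ] (Fin d'' → ℚ) →ₗ[ℚ] (Fin d → ℚ)) (hβ : IsBilinear V' V'' V w β)
      (hs : Submodule.span ℚ {x | ∃ u v, β u v = x} = ⊤)
      (h' : Built P V') (h'' : Built P V'') : Built P V
  | dual {d d' : ℕ} {V' : Structure d'} {V : Structure d} (w : ℤ)
      (B : (Fin d' → ℚ) →ₗ[ℚ] (Fin d → ℚ) →ₗ[ℚ] ℚ) (hB : IsPairing V' V w B)
      (hn : ∀ v, (∀ u, B u v = 0) → v = 0) (h' : Built P V') : Built P V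

/-- The structure as a member of the family of all structures. -/
def toU (V : Structure d) : Pool.Agent.N192.GP.UU := ⟨d, ⟨V.dR, V.indep⟩⟩

theorem toU_h1 {I : Type} {g : I → ℕ} (A : ∀ i, AbVar (g i)) (i : I) :
    toU (h1 (A i)) = ⟨2 * g i, Pool.Agent.N192.GP.DA A i⟩ := by
  unfold toU
  congr 1
  have h2 : (h1 (A i)).dR = Pool.Agent.N192.GP.ηA A i := by
    funext p
    unfold Pool.Agent.N192.GP.ηA
    rw [Basis.reindex_apply, (A i).coe_basis]
    rfl
  unfold Pool.Agent.N192.GP.DA
  congr 1

/-- The structures from which a perfect Lie algebra splits off form a class which is closed under the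
constructions. -/
theorem Built.sep {s : Pool.Agent.N192.GP.UU} {P : ∀ d : ℕ, Structure d → Prop}
    (hperf : Pool.Agent.N192.GP.ggU s ≤
      Pool.Agent.N192.GP.brk (Pool.Agent.N192.GP.ggU s) (Pool.Agent.N192.GP.ggU s))
    (hP : ∀ (d : ℕ) (U : Structure d), P d U → Pool.Agent.N192.GP.SepU s (toU U))
    {V : Structure d} (h : Built P V) : Pool.Agent.N192.GP.SepU s (toU V) := by
  induction h with
  | base h => exact hP _ _ h
  | @middle _ _ _ V₁ V V₂ f p hf hp hex _ _ ih' ih'' =>
    exact Pool.Agent.N192.GP.sepU_middle (V' := toU V₁) (V := toU V) (V'' := toU V₂)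
      hperf hf hp hex ih' ih''
  | @tensor _ _ _ V₁ V₂ V w β hβ hs' _ _ ih' ih'' =>
    exact Pool.Agent.N192.GP.sepU_tensor (V' := toU V₁) (V'' := toU V₂) (V := toU V)
      hperf hβ hs' ih' ih''
  | @dual _ _ V₁ V w B hB hn _ ih' =>
    exact Pool.Agent.N192.GP.sepU_dual (V' := toU V₁) (V := toU V) hperf hB hn ih'

end Structures

/-! ### Torsors -/

section Family

variable {K J : Type} [Fintype K] [DecidableEq K] [Fintype J] [DecidableEq J]
  {g : K → ℕ} (A : ∀ a, AbVar (g a)) {d : J → ℕ} (V : ∀ j, Structure (d j))

/-- The basis of the Betti realization of `h¹(∏ A a) ⊕ V`: the dual of the bases of the lattices, and the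
basis of `V j`. -/
abbrev Row (g : K → ℕ) (d : J → ℕ) : Type := (Σ a, Fin (2 * g a)) ⊕ (Σ j, Fin (d j))

/-- The basis of the de Rham realization of `h¹(∏ A a) ⊕ V`. -/
abbrev Col (g : K → ℕ) (d : J → ℕ) : Type := (Σ a, Fin (g a) ⊕ Fin (g a)) ⊕ (Σ j, Fin (d j))

/-- The matrix of periods of the abelian variety `A`: the differential forms of the basis of
`H¹_dR(A / ℚ̄)` are integrated over the basis of the lattice. -/
def periodsA {g : ℕ} (A : AbVar g) : Matrix (Fin (2 * g)) (Fin g ⊕ Fin g) ℂ :=
  Matrix.of fun p q => A.dR q (Pi.single p 1)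

/-- The matrix of periods of `V`. -/
def periodsV {d : ℕ} (V : Structure d) : Matrix (Fin d) (Fin d) ℂ :=
  Matrix.of fun p q => V.dR q (Pi.single p 1)

/-- The matrix of the comparison isomorphism of `h¹(∏ A a) ⊕ V`. -/
def periods : Matrix (Row g d) (Col g d) ℂ :=
  fromBlocks (blockDiagonal' fun a => periodsA (A a)) 0 0 (blockDiagonal' fun j => periodsV (V j))

/-- A subgroup of `GL_R(ℂ)` defined by polynomials with rational coefficients. -/
def IsAlgebraicSubgroup {R : Type} [Fintype R] [DecidableEq R] (G : Subgroup (GL R ℂ)) : Prop :=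
  ∃ S : Set (MvPolynomial (R × R) ℚ), ∀ x : GL R ℂ, x ∈ G ↔
    ∀ p ∈ S, MvPolynomial.aeval (fun b : R × R => (x : Matrix R R ℂ) b.1 b.2) p = 0

/-- The matrix `P` belongs to a torsor `G · T⁻¹` of `G` defined over `ℚ̄`. -/
def HasPoint {R C : Type} [Fintype R] [DecidableEq R] [Fintype C] (P : Matrix R C ℂ)
    (G : Subgroup (GL R ℂ)) : Prop :=
  ∃ T : Matrix C R ℂ, (∀ i j, IsAlgebraic ℚ (T i j)) ∧ ∃ x ∈ G, (x : Matrix R R ℂ) = P * T

/-- The Hodge structure of `H¹(A)`: the complex number `z` acts on `H_1(A, ℝ) = ℂ ^ g` by
multiplication, and on `H¹(A, ℝ)` by the transposed map, here in the basis of `H¹(A, ℚ)` which is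
dual to the basis of the lattice. -/
def hodge {g : ℕ} (A : AbVar g) (z : ℂ) : Matrix (Fin (2 * g)) (Fin (2 * g)) ℂ :=
  Matrix.of fun i j => ((A.lam.repr (z • A.lam i) j : ℝ) : ℂ)

/-- The group `Hg(∏ A a) × 1`: the smallest algebraic group over `ℚ` which contains the action of the
complex numbers of absolute value one on `H¹(∏ A a)`, acting trivially on `V`. -/
def hodgeGroup (d : J → ℕ) : Subgroup (GL (Row g d) ℂ) :=
  sInf {G | IsAlgebraicSubgroup G ∧ ∀ z : ℂ, ‖z‖ = 1 → ∃ x ∈ G,
    (x : Matrix (Row g d) (Row g d) ℂ) = fromBlocks (blockDiagonal' fun a => hodge (A a) z) 0 0 1}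

/-- The Hodge group of `∏ A a` splits off from the period torsor of `V = ⊕ V j`. -/
def TorsorSplits : Prop :=
  ∀ G : Subgroup (GL (Row g d) ℂ), IsAlgebraicSubgroup G → HasPoint (periods A V) G →
    hodgeGroup A d ≤ G ∧ ∀ z : ℂ, z ≠ 0 → ∃ x ∈ G, ∃ v,
      (x : Matrix (Row g d) (Row g d) ℂ) =
        fromBlocks (blockDiagonal' fun a => hodge (A a) z) 0 0 v

end Family

/-- There are no nonzero homomorphisms from `A` to `A'`: linear maps of the rational homology which
respect the Hodge structures and the de Rham structures. -/
def NoHom {g g' : ℕ} (A : AbVar g) (A' : AbVar g') : Prop :=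
  ∀ f : A.H1 →ₗ[ℚ] A'.H1,
    (∃ Q : (Fin g → ℂ) →ₗ[ℂ] (Fin g' → ℂ), ∀ w, A'.per (f w) = Q (A.per w)) →
    (∃ a : (Fin g' ⊕ Fin g') → (Fin g ⊕ Fin g) → QBar, ∀ p w,
      A'.dR p (f w) = ∑ q, algebraMap QBar ℂ (a p q) * A.dR q w) → f = 0

/-- The smallest dimension of a nontrivial representation of `so(r)`, for `r = 3` and for `r ≥ 6`. -/
def bound (r : ℕ) : ℕ := if r = 3 then 2 else if r = 6 then 4 else r

/-- The main step. -/
theorem torsorSplits {K J : Type} [Fintype K] [DecidableEq K] [Fintype J] [DecidableEq J]
    {g : K → ℕ} (A : ∀ a, AbVar (g a)) {d : J → ℕ} (V : ∀ j, Structure (d j)) {r k : K → ℕ}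
    (hA : ∀ i, Admissible (A i) (r i) (k i)) (hom : ∀ i i', i ≠ i' → NoHom (A i) (A i'))
    (hsep : ∀ i j, Pool.Agent.N192.GP.SepU ⟨2 * g i, Pool.Agent.N192.GP.DA A i⟩ (toU (V j))) :
    TorsorSplits A V := by
  intro G hG hP
  let V' : ∀ j, Pool.Agent.N192.GP.DRS (d j) := fun j => ⟨(V j).dR, (V j).indep⟩
  have hfit : Pool.Agent.T9h38.RM.Fit A V' :=
    Pool.Agent.T9h38.TM.fit_ofT (fun i => (hA i).mem) (fun i => (hA i).noIdeals)
      (fun i i' hne f hf => hom i i' hne f hf.1 hf.2) hsep
  obtain ⟨T, hT, x, hx, hxT⟩ := hP
  have hH := Pool.Agent.N192.GT.pt_of (A := A) (V := V') hG hT hx hxT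
  refine ⟨sInf_le ⟨hG, fun z hz => ?_⟩, fun z hz => ?_⟩
  · obtain ⟨y, hy, hyz⟩ := hfit.rho_mem hH hz
    refine ⟨y, hy, hyz.trans ?_⟩
    unfold Pool.Agent.N192.GT.rho
    rw [one_smul]
    rfl
  · obtain ⟨v, y, hy, hyz⟩ := hfit.torus_mem hH hz
    exact ⟨y, hy, v, hyz⟩

/-- **The exceptional abelian varieties of a de Rham-Betti structure.** -/
theorem result {I : Type} {g : I → ℕ} (A : ∀ i, AbVar (g i)) (r k : I → ℕ)
    (hA : ∀ i, Admissible (A i) (r i) (k i)) :
    ∃ E : ∀ d : ℕ, Structure d → Set I,
      (∀ (d : ℕ) (U : Structure d) (i : I), IsCM U → i ∉ E d U) ∧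
      (∀ i j : I, NoHom (A i) (A j) → i ∉ E (2 * g j) (h1 (A j))) ∧
      (∀ (d : ℕ) (U : Structure d) (S : Finset I), (∀ i ∈ S, i ∈ E d U) →
        (∀ i ∈ S, ∀ j ∈ S, i ≠ j → NoHom (A i) (A j)) → ∑ i ∈ S, k i * bound (r i) ≤ d) ∧
      ∀ {K J : Type} [Fintype K] [DecidableEq K] [Fintype J] [DecidableEq J] (e : K → I)
        {d : J → ℕ} (V : ∀ j, Structure (d j)),
        (∀ a b, a ≠ b → NoHom (A (e a)) (A (e b))) →
        (∀ a j, Built (fun d U => e a ∉ E d U) (V j)) → TorsorSplits (fun a => A (e a)) V := by
  classical
  have hperf : ∀ i, Pool.Agent.N192.GP.ggU ⟨2 * g i, Pool.Agent.N192.GP.DA A i⟩ ≤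
      Pool.Agent.N192.GP.brk (Pool.Agent.N192.GP.ggU ⟨2 * g i, Pool.Agent.N192.GP.DA A i⟩)
        (Pool.Agent.N192.GP.ggU ⟨2 * g i, Pool.Agent.N192.GP.DA A i⟩) := fun i =>
    (hA i).mem.perfU
  refine ⟨fun d U => {i | ¬Pool.Agent.N192.GP.SepU
    ⟨2 * g i, Pool.Agent.N192.GP.DA A i⟩ (toU U)}, fun d U i h h' => ?_, fun i j h hE => ?_,
    fun d U S hS hom => ?_, fun e d V hom hbuilt => ?_⟩
  · exact h' (Pool.Agent.T9h38.RM.sepU_cm (hperf i) fun X Y hX hY => LinearMap.ext (h X Y
      (fun P hP u => LinearMap.congr_fun (hX P hP) u)
      fun P hP u => LinearMap.congr_fun (hY P hP) u))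
  · apply hE
    rw [toU_h1 A j]
    exact Pool.Agent.T9h38.RM.sepU_pairA (I := Bool) (J := Empty) (g := fun b => g (cond b j i))
      (A := fun b => A (cond b j i)) (V := fun x => x.elim) (d := fun x => x.elim)
      (i := false) (i' := true) (Pool.Agent.T9h38.TM.sep_memT (hA i).mem (hA j).mem (hA i).noIdeals
        (hA j).noIdeals fun f hf => h f hf.1 hf.2)
  · have h1 := Pool.Agent.T9h38.TM.exc_dimT (I := S) (A := fun i : S => A i.1)
      (r := fun i => r i.1) (k := fun i => k i.1) (fun i => (hA i.1).mem)
      (fun i => (hA i.1).noIdeals)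
      (fun i i' hne f hf => hom i.1 i.2 i'.1 i'.2 (fun h => hne (Subtype.ext h)) f hf.1 hf.2)
      (U := ⟨U.dR, U.indep⟩) (fun i => hS i.1 i.2)
    rw [Finset.sum_coe_sort S (fun i => k i * Pool.Agent.T9h38.RM.bet (r i))] at h1
    exact h1
  · refine torsorSplits (fun a => A (e a)) V (r := fun a => r (e a)) (k := fun a => k (e a))
      (fun a => hA (e a)) hom fun a j => ?_
    exact (hbuilt a j).sep (hperf (e a)) fun d U hU => not_not.1 hU

end Pool.Agent.Results.MP_470b79_ag.TensorSplitTorsors
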